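import Pool.Agent.Helper44.GF.Defs

/-!
# Module HFACE for MP_d210aa_gt: the Hausdorff measure of a face
-/

open Finset MeasureTheory Filter Topology Measure
open scoped ENNReal

namespace Pool.Agent.Helper44.GF

theorem hface_map {m : ℕ} {E : Type} [NormedAddCommGroup E] [NormedSpace ℝ E]
    [MeasurableSpace E] [BorelSpace E] (e : (Fin m → ℝ) ≃L[ℝ] E) (s : Set E) :
    (volume.map e : Measure E) s = volume (e ⁻¹' s) := by
  have h := (e.toHomeomorph.toMeasurableEquiv).map_apply (μ := (volume : Measure (Fin m → ℝ))) s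
  exact h

theorem hface_finrank {m : ℕ} {E : Type} [NormedAddCommGroup E] [NormedSpace ℝ E]
    (e : (Fin m → ℝ) ≃L[ℝ] E) : Module.finrank ℝ E = m := by
  rw [← e.toLinearEquiv.finrank_eq]
  simp

theorem hface_gen (hb : ST_HBALL) {m : ℕ} (hm : 1 ≤ m) {E : Type} [NormedAddCommGroup E]
    [NormedSpace ℝ E] [MeasurableSpace E] [BorelSpace E]
    (e : (Fin m → ℝ) ≃L[ℝ] E) (s : Set (Fin m → ℝ)) :
    μH[(m : ℝ)] (e '' s)
      = 2 ^ m / volume (e ⁻¹' Metric.ball (0 : E) 1) * volume s := by
  have hfin : FiniteDimensional ℝ E := e.toLinearEquiv.finiteDimensional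
  have hr : Module.finrank ℝ E = m := hface_finrank e
  have hnt : Nontrivial E := by
    apply Module.nontrivial_of_finrank_pos (R := ℝ)
    omega
  have hH : (μH[(Module.finrank ℝ E : ℝ)] : Measure E)
      = addHaarScalarFactor (μH[(Module.finrank ℝ E : ℝ)] : Measure E) (volume.map e : Measure E) •
        (volume.map e : Measure E) := Measure.isAddLeftInvariant_eq_smul _ _
  set c := addHaarScalarFactor (μH[(Module.finrank ℝ E : ℝ)] : Measure E) (volume.map e : Measure E)
    with hc
  have hball := hb E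
  rw [hH] at hball
  have hcb : (volume.map e : Measure E) (Metric.closedBall (0 : E) 1)
      = volume (e ⁻¹' Metric.ball (0 : E) 1) := by
    rw [addHaar_closedBall_eq_addHaar_ball, hface_map]
  have h1 : (c : ℝ≥0∞) * volume (e ⁻¹' Metric.ball (0 : E) 1) = 2 ^ m := by
    rw [Measure.smul_apply, hcb, hr] at hball
    exact hball
  have hpos : volume (e ⁻¹' Metric.ball (0 : E) 1) ≠ 0 := by
    rw [← hface_map]
    exact (Metric.measure_ball_pos _ _ one_pos).ne'
  have htop : volume (e ⁻¹' Metric.ball (0 : E) 1) ≠ ∞ := by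
    rw [← hface_map]
    exact measure_ball_lt_top.ne
  have h2 : (c : ℝ≥0∞) = 2 ^ m / volume (e ⁻¹' Metric.ball (0 : E) 1) := by
    rw [ENNReal.eq_div_iff hpos htop, mul_comm]
    exact h1
  have h3 : (μH[(m : ℝ)] : Measure E) = c • (volume.map e : Measure E) := by
    rw [← hH, hr]
  rw [h3, Measure.smul_apply, hface_map, Set.preimage_image_eq _ e.injective]
  rw [← h2]
  rfl

theorem hface_ball {m : ℕ} {p : ℝ} (hp : 0 < p) {E : Type} [NormedAddCommGroup E]
    [NormedSpace ℝ E] [MeasurableSpace E] [BorelSpace E]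
    (e : (Fin m → ℝ) ≃L[ℝ] E) :
    volume (e ⁻¹' Metric.ball (0 : E) 1)
      = ENNReal.ofReal ((∫ t, Real.exp (-‖e t‖ ^ p)) / Real.Gamma (m / p + 1)) := by
  have hfin : FiniteDimensional ℝ E := e.toLinearEquiv.finiteDimensional
  have hr : Module.finrank ℝ E = m := hface_finrank e
  rw [← hface_map, measure_unitBall_eq_integral_div_gamma _ hp, hr]
  have h := integral_map_equiv (μ := (volume : Measure (Fin m → ℝ)))
    e.toHomeomorph.toMeasurableEquiv (fun x : E => Real.exp (-‖x‖ ^ p))
  have h' : (∫ x : E, Real.exp (-‖x‖ ^ p) ∂(volume.map e : Measure E))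
      = ∫ t : Fin m → ℝ, Real.exp (-‖e t‖ ^ p) := h
  rw [h']

theorem st_HFACE (hb : ST_HBALL) : ST_HFACE := by
  intro m n p hm hp hfact
  have hp0 : 0 < p := by linarith
  have hG : 0 < Real.Gamma ((m : ℝ) / p + 1) := Real.Gamma_pos_of_pos (by positivity)
  refine ⟨2 ^ m * Real.Gamma (m / p + 1), by positivity, ?_⟩
  intro F
  -- the linear map
  set q : ℝ≥0∞ := ENNReal.ofReal p with hq
  have hqt : q.toReal = p := ENNReal.toReal_ofReal hp0.le
  let L : (Fin m → ℝ) →ₗ[ℝ] PiLp q (fun _ : Fin n => ℝ) :=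
    (WithLp.linearEquiv q ℝ (Fin n → ℝ)).symm.toLinearMap.comp F.mat.mulVecLin
  have hL : ∀ t, L t = WithLp.toLp q (F.mat.mulVec t) := fun t => rfl
  have hmv : ∀ t : Fin m → ℝ, F.mat.mulVec t = ∑ k, t k • F.dir k := by
    intro t
    funext i
    simp only [Matrix.mulVec, dotProduct, Face.mat, Matrix.of_apply, Finset.sum_apply,
      Pi.smul_apply, smul_eq_mul]
    exact Finset.sum_congr rfl fun k _ => mul_comm _ _
  have hinj : Function.Injective L := by
    rw [← LinearMap.ker_eq_bot, LinearMap.ker_eq_bot']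
    intro t ht
    rw [hL] at ht
    have h0 : F.mat.mulVec t = 0 := by
      have := congrArg WithLp.ofLp ht
      simpa using this
    rw [hmv] at h0
    funext k
    exact Fintype.linearIndependent_iff.mp F.indep t h0 k
  let e : (Fin m → ℝ) ≃L[ℝ] LinearMap.range L :=
    (LinearEquiv.ofInjective L hinj).toContinuousLinearEquiv
  have he : ∀ t, ((e t : LinearMap.range L) : PiLp q (fun _ : Fin n => ℝ)) = L t := fun t => rfl
  have hnorm : ∀ t, ‖e t‖ ^ p = ∑ i, ((F.mat.mulVec t i) ^ 2) ^ (p / 2) := by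
    intro t
    have h1 : ‖e t‖ = ‖L t‖ := by rw [← he t]; rfl
    rw [h1, hL, PiLp.norm_eq_sum (by rw [hqt]; exact hp0), hqt]
    rw [← Real.rpow_mul (Finset.sum_nonneg fun i _ => by positivity), one_div,
      inv_mul_cancel₀ hp0.ne', Real.rpow_one]
    refine Finset.sum_congr rfl fun i _ => ?_
    rw [← sq_abs, ← Real.rpow_natCast, ← Real.rpow_mul (abs_nonneg _), Real.norm_eq_abs]
    congr 1
    push_cast
    ring
  have hMM : (∫ t, Real.exp (-‖e t‖ ^ p)) = MM (fun u => u ^ (p / 2)) F.mat := by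
    unfold MM
    congr 1
    funext t
    rw [hnorm t]
  have hball := hface_ball (m := m) hp0 e
  rw [hMM] at hball
  have hpos : 0 < volume (e ⁻¹' Metric.ball (0 : LinearMap.range L) 1) := by
    exact (Metric.isOpen_ball.preimage e.continuous).measure_pos
      (volume : Measure (Fin m → ℝ)) ⟨0, by simp⟩
  rw [hball, ENNReal.ofReal_pos] at hpos
  have hM0 : 0 < MM (fun u => u ^ (p / 2)) F.mat := by
    by_contra hneg
    push Not at hneg
    have : MM (fun u => u ^ (p / 2)) F.mat / Real.Gamma (m / p + 1) ≤ 0 :=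
      div_nonpos_of_nonpos_of_nonneg hneg hG.le
    linarith
  refine ⟨hM0, ?_⟩
  have hcar : F.carrier q = (fun x => WithLp.toLp q F.base + x) ''
      ((Subtype.val : LinearMap.range L → PiLp q (fun _ : Fin n => ℝ)) '' (e '' F.dom)) := by
    unfold Face.carrier
    rw [Set.image_image, Set.image_image]
    apply Set.image_congr
    intro t _
    rw [he, hL, hmv]
    rfl
  rw [hcar]
  have hiso1 : Isometry (fun x : PiLp q (fun _ : Fin n => ℝ) => WithLp.toLp q F.base + x) :=
    (IsometryEquiv.addLeft (WithLp.toLp q F.base)).isometry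
  rw [hiso1.hausdorffMeasure_image (Or.inl (by positivity)),
    isometry_subtype_coe.hausdorffMeasure_image (Or.inl (by positivity)),
    hface_gen hb hm e, hball]
  have hdomtop : volume F.dom ≠ ∞ := by
    unfold Face.dom
    exact (F.verts.finite_toSet.isCompact_convexHull ℝ).measure_lt_top.ne
  have hX : 0 < MM (fun u => u ^ (p / 2)) F.mat / Real.Gamma (m / p + 1) := hpos
  conv_lhs => rw [← ENNReal.ofReal_toReal hdomtop]
  have h2 : (2 : ℝ≥0∞) ^ m = ENNReal.ofReal (2 ^ m) := by
    rw [ENNReal.ofReal_pow (by norm_num)]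
    norm_num
  rw [h2, ← ENNReal.ofReal_div_of_pos hX, ← ENNReal.ofReal_mul (by positivity)]
  congr 1
  have := hM0.ne'
  have := hG.ne'
  field_simp

end Pool.Agent.Helper44.GF
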